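import Mathlib
import Pool.Agent.Lib.helper9.UCLp

set_option autoImplicit false

namespace Pool.Agent.Results.MP_5b7a98_an.No

open MeasureTheory Filter Topology Set Pool.Agent.Lib.helper9.UCLp
open scoped ENNReal NNReal

/-- mu-compactness -/
def MuCompact {E : Type} [NormedAddCommGroup E] [NormedSpace ℝ E] [MeasurableSpace E]
    [BorelSpace E] (A : Set E) : Prop :=
  ∀ K ⊆ A, IsCompact K → IsCompact {μ : ProbabilityMeasure A | ∫ x : A, (x : E) ∂μ ∈ K}

/-- every closed bounded convex mu-compact set is compact -/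
def OnlyCompact (E : Type) [NormedAddCommGroup E] [NormedSpace ℝ E] : Prop :=
  ∀ [MeasurableSpace E] [BorelSpace E] (A : Set E), IsClosed A → Bornology.IsBounded A →
    Convex ℝ A → MuCompact A → IsCompact A

theorem core (E : Type) [NormedAddCommGroup E] [NormedSpace ℝ E] [CompleteSpace E] {q : ℝ}
    (q0 : 0 < q) (h : UC E q) : OnlyCompact E := by
  intro _ _ A h1 h2 h3 h4
  by_contra hc
  have tb : ¬ TotallyBounded (univ : Set A) := fun t => hc (by
    have := h1.completeSpace_coe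
    exact isCompact_iff_compactSpace.2 ⟨isCompact_iff_totallyBounded_isComplete.2
      ⟨t, isComplete_univ⟩⟩)
  rw [Metric.totallyBounded_iff] at tb
  push Not at tb
  obtain ⟨δ, δ0, hδ⟩ := tb
  obtain ⟨x, -, hx⟩ := exists_seq_of_forall_finset_exists (fun _ : A => True)
    (fun a b => δ ≤ dist a b) fun s _ => by
      obtain ⟨y, -, hy⟩ := not_subset.1 (hδ s s.finite_toSet)
      refine ⟨y, trivial, fun a ha => not_lt.1 fun c => hy ?_⟩
      exact mem_iUnion₂.2 ⟨a, ha, by rwa [Metric.mem_ball, dist_comm]⟩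
  have cl : ∀ k, IsClosed (x '' Ici k) := fun k => Metric.isClosed_of_pairwise_le_dist δ0 (by
    rintro _ ⟨i, -, rfl⟩ _ ⟨j, -, rfl⟩ e
    rcases lt_trichotomy i j with c | c | c
    · exact hx i j c
    · exact absurd (congrArg x c) e
    · rw [dist_comm]; exact hx j i c)
  obtain ⟨M, hM⟩ := h2.exists_norm_le
  have inA : ∀ μ : ProbabilityMeasure A, Integrable (fun a : A => (a : E)) μ →
      ∫ a : A, (a : E) ∂μ ∈ A := fun μ i => h3.integral_mem h1 (Eventually.of_forall fun a => a.2) i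
  obtain ⟨y, z, y1, y2⟩ := select q0 h (fun k => {b | ∃ μ : ProbabilityMeasure A,
      (μ : Measure A) (x '' Ici k) = 1 ∧ Integrable (fun a : A => (a : E)) μ ∧ ∫ a : A, (a : E) ∂μ = b})
    (fun j k hjk b ⟨μ, a, c⟩ => ⟨μ, le_antisymm prob_le_one
      (a ▸ measure_mono (image_mono (Ici_subset_Ici.2 hjk))), c⟩)
    (fun k => ⟨_, ⟨Measure.dirac (x k), inferInstance⟩,
      Measure.dirac_apply_of_mem ⟨k, self_mem_Ici, rfl⟩, integrable_dirac (by simp), rfl⟩) (M := M)
    (by rintro _ ⟨μ, -, i, rfl⟩; exact hM _ (inA μ i)) (by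
      rintro k _ ⟨μ, a1, a2, rfl⟩ _ ⟨ν, b1, b2, rfl⟩
      refine ⟨⟨(2⁻¹ : ℝ≥0) • ((μ : Measure A) + ν), ⟨by
        simp [ENNReal.inv_two_add_inv_two]⟩⟩,
        by simp [a1, b1, ENNReal.inv_two_add_inv_two],
        (a2.add_measure b2).smul_measure_nnreal, ?_⟩
      simp only [ProbabilityMeasure.coe_mk]
      rw [integral_smul_nnreal_measure, integral_add_measure a2 b2, NNReal.smul_def]
      simp)
  choose μ m1 m2 m3 using y1
  have yA : ∀ k, y k ∈ A := fun k => m3 k ▸ inA _ (m2 k)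
  obtain ⟨ν, -, hν⟩ := isCompact_iff_ultrafilter_le_nhds.1 (h4 _ (insert_subset
    (h1.mem_of_tendsto y2 (Eventually.of_forall yA)) (range_subset_iff.2 yA))
    y2.isCompact_insert_range) ((Ultrafilter.of atTop).map μ) (by
      rw [Ultrafilter.coe_map, le_principal_iff, mem_map]
      exact Eventually.of_forall fun k => Or.inr ⟨k, (m3 k).symm⟩)
  have one : ∀ k, 1 ≤ (ν : Measure A) (x '' Ici k) := fun k => by
    refine le_trans ?_ (ProbabilityMeasure.limsup_measure_closed_le_of_tendsto hν (cl k))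
    refine le_limsup_of_frequently_le (Eventually.frequently ?_)
    filter_upwards [Ultrafilter.of_le atTop (eventually_ge_atTop k)] with j hj
    exact m1 j ▸ measure_mono (image_mono (Ici_subset_Ici.2 hj))
  have t := tendsto_measure_iInter_atTop (μ := (ν : Measure A))
    (fun k => (cl k).measurableSet.nullMeasurableSet)
    (fun j k hjk => image_mono (Ici_subset_Ici.2 hjk)) ⟨0, measure_ne_top _ _⟩
  have e : ⋂ k, x '' Ici k = ∅ := by
    rw [eq_empty_iff_forall_notMem]
    intro a ha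
    obtain ⟨i, -, rfl⟩ := mem_iInter.1 ha 0
    obtain ⟨j, hj, e⟩ := mem_iInter.1 ha (i + 1)
    have := hx i j hj
    rw [e, dist_self] at this
    linarith
  rw [e, measure_empty] at t
  simpa using ge_of_tendsto' t one

theorem result : ∀ (p : ℝ≥0∞) [Fact (1 ≤ p)], 1 < p → p < ∞ →
    OnlyCompact (lp (fun _ : ℕ => ℝ) p) ∧
      OnlyCompact (Lp ℝ p (volume.restrict (Icc (0 : ℝ) 1))) := by
  intro p _ h1 h2
  have hq : 1 < p.toReal := by
    simpa using (ENNReal.toReal_lt_toReal ENNReal.one_ne_top h2.ne).2 h1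
  exact ⟨core _ (by linarith) (uc_lp p hq ℕ), core _ (by linarith) (uc_Lp p hq _)⟩

end Pool.Agent.Results.MP_5b7a98_an.No
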